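import Pool.Graph.R_seed8.Y121.AHS.Defs
import Pool.Graph.R_seed8.Y163.Defs

/-!
# Almost all Hodge classes are absolutely Hodge: definitions
-/

set_option autoImplicit false

open CategoryTheory AlgebraicGeometry

universe u v

namespace Pool.Agent.H858.AH

open Pool.Agent.H914 VarClass Obj WeilCohomology Pool.Agent.Y121.AHS
open Pool.Agent.Y163 (pw)
open Pool.Agent.Y133.Half (dimOf)

variable {k : Type u} [Field k] {𝒱 : VarClass k} {ops : CycleOps 𝒱}

/-- The morphism `f : Z → X` acts as zero on the cohomology of degree `i`. -/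
def ActsZero (W : WeilCohomology.{u, v} ops) {Z X : 𝒱.Obj} (f : Z ⟶ X) (i : ℕ) : Prop :=
  ∀ x ∈ W.gr X i, W.map f x = 0

/-- The morphism `f : Z → X` acts as zero on the cohomology of positive degree, for instance a constant
morphism. -/
def IsConstant (W : WeilCohomology.{u, v} ops) {Z X : 𝒱.Obj} (f : Z ⟶ X) : Prop :=
  ∀ i, 0 < i → ActsZero W f i

/-- The projections `X ^ (n + 1) → X`. -/
noncomputable def coord (X : 𝒱.Obj) (n : ℕ) : Fin (n + 1) → (pw X n ⟶ X) :=
  Nat.rec (motive := fun n => Fin (n + 1) → (pw X n ⟶ X)) (fun _ => 𝟙 X)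
    (fun n p i => Fin.cases (fst X (pw X n)) (fun j => snd X (pw X n) ≫ p j) i) n

/-- The class `x` on `X ^ (m + 1)` vanishes after the pull-back by every morphism `Z → X ^ (m + 1)` with a
constant component. For a class of degree `c (m + 1)`, if the cohomology of `X` is zero in the degrees `i`
with `0 < i < c`, it means that `x` is in the Kunneth component `H^c(X) ⊗ ⋯ ⊗ H^c(X)`. -/
def IsPure (W : WeilCohomology.{u, v} ops) (X : 𝒱.Obj) (m : ℕ) (x : W.H (pw X m)) : Prop :=
  ∀ (Z : 𝒱.Obj) (g : Z ⟶ pw X m) (i : Fin (m + 1)), IsConstant W (g ≫ coord X m i) → W.map g x = 0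

/-- The cohomology of `X` is zero in the degrees `i` with `0 < i < c`, and the Kunneth component
`H^c(X) ⊗ ⋯ ⊗ H^c(X)` of the cohomology of degree `2 j = c (m + 1)` of `X ^ (m + 1)` contains a Hodge
class different from zero. For `dim X > 0` this is true for `c = 1`, `m + 1 = 2 j` if `b_1(X) > 0`, and
for `c = 2`, `m + 1 = j` if `b_1(X) = 0` (external products of classes of divisors on `X × X` and on
`X`). -/
def IsLeading (T : HodgeTheory ops) (X : 𝒱.Obj) (m c j : ℕ) : Prop :=
  0 < c ∧ c * (m + 1) = 2 * j ∧ (∀ i, 0 < i → i < c → ActsZero T.W (𝟙 X) i) ∧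
    ∃ x, IsPure T.W X m x ∧ IsHodge T (pw X m) j x ∧ x ≠ 0

/-- The Hodge classes of degree `2 j` in the Kunneth component `H^c(X) ⊗ ⋯ ⊗ H^c(X)` of the cohomology of
`X ^ (m + 1)` are absolutely Hodge. For `c = 1` this is a theorem of Deligne, for all `X`: the classes
come from the abelian variety `Alb(X) ^ (m + 1)`. -/
def LeadIsAbs {T : HodgeTheory ops} (D : Conjugates T) (X : 𝒱.Obj) (m j : ℕ) : Prop :=
  ∀ x, IsPure T.W X m x → IsHodge T (pw X m) j x → IsAbsHodge D (pw X m) j x

/-- The dimension of the space of the Hodge classes of degree `2 j` on `Z`. -/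
noncomputable def hodgeRank (T : HodgeTheory ops) (Z : 𝒱.Obj) (j : ℕ) : ℕ :=
  dimOf T.W {x : T.W.H Z | IsHodge T Z j x}

/-- The dimension of the space of the absolutely Hodge classes of degree `2 j` on `Z`. -/
noncomputable def absRank {T : HodgeTheory ops} (D : Conjugates T) (Z : 𝒱.Obj) (j : ℕ) : ℕ :=
  dimOf T.W {x : T.W.H Z | IsAbsHodge D Z j x}

/-- The sum of all Betti numbers. -/
noncomputable def bettiSum (W : WeilCohomology.{u, v} ops) (X : 𝒱.Obj) : ℕ :=
  dimOf W (Set.univ : Set (W.H X))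

/-- The number `4 L b ^ (L - 1) b' / n`. -/
def loss (L b b' n : ℕ) : ℚ := 4 * L * b ^ (L - 1) * b' / n

end Pool.Agent.H858.AH
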