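import Pool.Agent.H858.AD.Low
import Pool.Agent.H858.AH.Data
import Pool.Agent.H858.FC.Prod

/-!
# Classes on `Y × X ^ (n + 1)` and their leading terms
-/

set_option autoImplicit false
set_option linter.unusedSectionVars false
set_option linter.unusedVariables false

open CategoryTheory AlgebraicGeometry Finset

universe u v w

namespace Pool.Agent.H858.AH

open Pool.Agent.H914 hiding iter map_iter
open Pool.Agent.H447 Pool.Agent.W534 VarClass Obj WeilCohomology
open Pool.Agent.H281R3.HT Pool.Agent.W536.RR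
open Pool.Agent.Y163 (pw pr tup tup_pr pw_hom_ext pr_zero_succ pr_succ dim_pw HBasis dualEq
  dualEq_apply mon mon_eq exists_monBasis)
open Pool.Agent.H858.FC (PP PP_eq PP_gr PP_mul tr_PP PP_alg prod_filter_one)
open Pool.Agent.R940 (repr_zero)
open Pool.Agent.H858.AD

variable {k : Type u} [Field k] {𝒱 : VarClass k} {ops : CycleOps 𝒱}
  {W : WeilCohomology.{u, v} ops} {X Y Z S : 𝒱.Obj}

/-- The space spanned by the external products of `m + 1` classes of degree `c` on `X`. -/
noncomputable def leadPart (W : WeilCohomology.{u, v} ops) (X : 𝒱.Obj) (m c : ℕ) :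
    Submodule W.K (W.H (pw X m)) :=
  Submodule.span W.K {x | ∃ v : Fin (m + 1) → W.H X, (∀ i, v i ∈ W.gr X c) ∧ x = PP W X m v}

theorem coord_eq : ∀ (n : ℕ) (i : Fin (n + 1)), coord X n i = pr X n i
  | 0, _ => rfl
  | n + 1, i => by
    refine Fin.cases ?_ (fun j => ?_) i
    · rfl
    · rw [pr_succ, ← coord_eq n j]
      rfl

theorem bettiSum_eq : bettiSum W X = Module.finrank W.K (W.H X) := by
  unfold bettiSum Pool.Agent.Y133.Half.dimOf
  rw [Set.finrank, Submodule.span_univ, finrank_top]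

/-- These classes vanish if a component is constant. -/
theorem isPure_of_lead {m c : ℕ} (hc0 : 0 < c) {x : W.H (pw X m)} (hx : x ∈ leadPart W X m c) :
    IsPure W X m x := by
  intro Z g i hi
  rw [coord_eq] at hi
  unfold leadPart at hx
  induction hx using Submodule.span_induction with
  | mem x hx =>
    obtain ⟨v, hv, rfl⟩ := hx
    rw [PP_eq, map_list_prod, List.map_ofFn]
    refine List.prod_eq_zero ?_
    rw [List.mem_ofFn]
    refine ⟨i, ?_⟩
    rw [Function.comp_apply, ← W.map_comp]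
    exact hi c hc0 _ (hv i)
  | zero => rw [map_zero]
  | add x y _ _ hx hy => rw [map_add, hx, hy, add_zero]
  | smul r x _ hx => rw [map_smul, hx, smul_zero]

/-- A basis of homogeneous classes which contains the class `1`. -/
theorem exists_ubasis (h1 : (1 : W.H X) ≠ 0) : ∃ (ι : Type v) (_ : Finite ι) (B : HBasis W X ι)
    (i0 : ι), B.deg i0 = 0 ∧ B.b i0 = 1 ∧ ∀ i, B.deg i = 0 → i = i0 := by
  classical
  obtain ⟨ι, hι, ⟨B⟩⟩ := Pool.Agent.Y163.exists_hbasis W X
  obtain ⟨i0, h0, ⟨c, hc, hb⟩, hi0⟩ := exists_unit (B := B) h1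
  have hu : ∀ i, IsUnit (if i = i0 then c⁻¹ else (1 : W.K)) := by
    intro i
    split_ifs
    · exact isUnit_iff_ne_zero.2 (inv_ne_zero hc)
    · exact isUnit_one
  refine ⟨ι, hι, ⟨B.b.isUnitSMul hu, B.deg, fun i => ?_⟩, i0, h0, ?_, hi0⟩
  · rw [Module.Basis.isUnitSMul_apply]
    exact (W.gr X _).smul_mem _ (B.mem i)
  · change B.b.isUnitSMul hu i0 = 1
    rw [Module.Basis.isUnitSMul_apply, if_pos rfl, hb, smul_smul, inv_mul_cancel₀ hc, one_smul]

theorem EE_one {n : ℕ} (x : Fin (n + 1) → W.H X) :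
    EE W Y X n 1 x = W.map (snd Y (pw X n)) (PP W X n x) := by
  rw [EE, map_one, one_mul]

section

variable {n m : ℕ}

/-- The morphism `X ^ (m + 1) → Y × X ^ (n + 1)` which is given by `τ` and by constant morphisms. -/
noncomputable def sec (κ : X ⟶ X) (ω : X ⟶ Y) (τ : Fin (m + 1) → Fin (n + 1)) :
    pw X m ⟶ Y.prod (pw X n) :=
  Obj.lift (pr X m 0 ≫ ω) (tup n fun t => Function.extend τ (fun i => pr X m i)
    (fun _ => pr X m 0 ≫ κ) t)

/-- The projection `Y × X ^ (n + 1) → X ^ (m + 1)`. -/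
noncomputable def prj (Y X : 𝒱.Obj) (τ : Fin (m + 1) → Fin (n + 1)) : Y.prod (pw X n) ⟶ pw X m :=
  snd Y (pw X n) ≫ tup m fun i => pr X n (τ i)

theorem sec_prj (κ : X ⟶ X) (ω : X ⟶ Y) {τ : Fin (m + 1) → Fin (n + 1)}
    (hτ : Function.Injective τ) : sec κ ω τ ≫ prj Y X τ = 𝟙 _ := by
  refine pw_hom_ext m fun i => ?_
  rw [Category.id_comp, Category.assoc, prj, Category.assoc, tup_pr, ← Category.assoc, sec,
    Obj.lift_snd, tup_pr, hτ.extend_apply]

theorem map_prj_PP {τ : Fin (m + 1) → Fin (n + 1)} (hτ : ∀ w : Fin (m + 1) → W.H X,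
    W.map (tup m fun i => pr X n (τ i)) (PP W X m w) = PP W X n (Function.extend τ w fun _ => 1))
    (w : Fin (m + 1) → W.H X) :
    W.map (prj Y X τ) (PP W X m w) = EE W Y X n 1 (Function.extend τ w fun _ => 1) := by
  rw [prj, W.map_comp, hτ, EE_one]

/-- Words with another support are mapped to zero. -/
theorem map_sec_zero (κ : X ⟶ X) (ω : X ⟶ Y) {τ : Fin (m + 1) → Fin (n + 1)}
    (x : Fin (n + 1) → W.H X) (t : Fin (n + 1)) (ht : ¬ ∃ i, τ i = t) (h0 : W.map κ (x t) = 0) :
    W.map (sec κ ω τ) (EE W Y X n 1 x) = 0 := by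
  rw [EE_one, ← W.map_comp, sec, Obj.lift_snd, PP_eq, map_list_prod, List.map_ofFn]
  refine List.prod_eq_zero ?_
  rw [List.mem_ofFn]
  refine ⟨t, ?_⟩
  rw [Function.comp_apply, ← W.map_comp, tup_pr, Function.extend_apply' _ _ _ ht, W.map_comp, h0,
    map_zero]

end

/-- Linear maps with values in `K ^ A`. -/
theorem finrank_le_add {K V α : Type*} [Field K] [AddCommGroup V] [Module K V]
    [FiniteDimensional K V] (A : Finset α) (φ : α → V →ₗ[K] K) (N U : Submodule K V)
    (h : ∀ x ∈ N, (∀ a ∈ A, φ a x = 0) → x ∈ U) :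
    Module.finrank K N ≤ Module.finrank K U + A.card := by
  classical
  let Φ : N →ₗ[K] (A → K) := LinearMap.pi fun a => (φ a.1) ∘ₗ N.subtype
  have h1 := LinearMap.finrank_range_add_finrank_ker Φ
  have h2 : Module.finrank K (LinearMap.range Φ) ≤ A.card := by
    refine (Submodule.finrank_le _).trans ?_
    rw [Module.finrank_pi, Fintype.card_coe]
  have h3 : Module.finrank K (LinearMap.ker Φ) ≤ Module.finrank K U := by
    refine LinearMap.finrank_le_finrank_of_injective (f := LinearMap.codRestrict U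
      (N.subtype ∘ₗ (LinearMap.ker Φ).subtype) (fun x => h _ x.1.2 fun a ha => ?_)) ?_
    · exact congrFun (LinearMap.mem_ker.1 x.2) ⟨a, ha⟩
    · intro x y hxy
      have h4 := congrArg Subtype.val hxy
      exact Subtype.ext (Subtype.ext h4)
  omega

/-- **The leading terms decide.** -/
theorem core {n m c j : ℕ} (hcL : c * (m + 1) = 2 * j) (hc0 : 0 < c)
    (hc : ∀ i, 0 < i → i < c → W.gr X i = ⊥) (κ : X ⟶ X)
    (hκ : ∀ i, 0 < i → ∀ x ∈ W.gr X i, W.map κ x = 0) (ω : X ⟶ Y)
    (N U : ∀ Z : 𝒱.Obj, Submodule W.K (W.H Z)) (hgr : ∀ Z, N Z ≤ W.gr Z (2 * j))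
    (hN : ∀ {Z Z' : 𝒱.Obj} (f : Z ⟶ Z') (x : W.H Z'), x ∈ N Z' → W.map f x ∈ N Z)
    (hU : ∀ {Z Z' : 𝒱.Obj} (f : Z ⟶ Z') (x : W.H Z'), x ∈ U Z' → W.map f x ∈ U Z)
    (hlead : ∀ x ∈ N (pw X m), x ∈ leadPart W X m c → x ∈ U (pw X m))
    (hX1 : (1 : W.H X) ≠ 0) (hY1 : (1 : W.H Y) ≠ 0) :
    Module.finrank W.K (N (Y.prod (pw X n))) ≤ Module.finrank W.K (U (Y.prod (pw X n))) +
      Module.finrank W.K (W.H Y) * (((univ : Finset (Finset (Fin (n + 1)))).filter
        fun S => S.card < m + 1).card * Module.finrank W.K (W.H X) ^ m) := by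
  classical
  obtain ⟨ι, hι, B, i0, h0, h1, hi0⟩ := exists_ubasis hX1
  obtain ⟨ιY, hιY, BY, y0, h0Y, h1Y, hy0⟩ := exists_ubasis hY1
  have := Fintype.ofFinite ι
  have := Fintype.ofFinite ιY
  obtain ⟨b, hb⟩ := exists_wbasis BY B n
  have hfd : FiniteDimensional W.K (W.H (Y.prod (pw X n))) := Module.Finite.of_basis b
  set A : Finset (ιY × (Fin (n + 1) → ι)) := univ.filter fun a => (supp i0 a.2).card < m + 1
    with hA
  have hcard : A.card ≤ Module.finrank W.K (W.H Y) *
      (((univ : Finset (Finset (Fin (n + 1)))).filter fun S => S.card < m + 1).card *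
        Module.finrank W.K (W.H X) ^ m) := by
    rw [Module.finrank_eq_card_basis B.b, Module.finrank_eq_card_basis BY.b]
    have h2 : A = univ ×ˢ (univ.filter fun I : Fin (n + 1) → ι => (supp i0 I).card < m + 1) := by
      ext a
      simp [hA]
    rw [h2, card_product, card_univ]
    refine Nat.mul_le_mul_left _ ?_
    exact card_small i0 (Nat.succ_pos m)
  refine (finrank_le_add A (fun a => b.coord a) (N (Y.prod (pw X n))) (U (Y.prod (pw X n)))
    fun x hx hx0 => ?_).trans (Nat.add_le_add_left hcard _)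
  -- only the good words occur
  have hgood : ∀ a, b.repr x a ≠ 0 → a.1 = y0 ∧ (supp i0 a.2).card = m + 1 ∧
      ∀ t ∈ supp i0 a.2, B.deg (a.2 t) = c := by
    intro a ha
    have hs : m + 1 ≤ (supp i0 a.2).card := by
      by_contra h
      exact ha (hx0 a (mem_filter.2 ⟨mem_univ _, not_le.1 h⟩))
    have hdeg : BY.deg a.1 + ∑ t, B.deg (a.2 t) = 2 * j := by
      by_contra hdeg
      refine ha (repr_zero (W.isInternal _).submodule_iSupIndep b
        (fun a => BY.deg a.1 + ∑ t, B.deg (a.2 t)) (fun a => ?_) (hgr _ hx) hdeg)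
      rw [hb]
      exact EE_gr (BY.mem _) fun t => B.mem _
    have hsum : ∑ t ∈ supp i0 a.2, B.deg (a.2 t) ≤ ∑ t, B.deg (a.2 t) :=
      sum_le_sum_of_subset (subset_univ _)
    have hge : ∀ t ∈ supp i0 a.2, c ≤ B.deg (a.2 t) := fun t ht =>
      deg_ge hc hi0 (mem_filter.1 ht).2
    have hsum2 : (supp i0 a.2).card * c ≤ ∑ t ∈ supp i0 a.2, B.deg (a.2 t) := by
      have := card_nsmul_le_sum _ _ _ hge
      rwa [smul_eq_mul] at this
    have hcard : (supp i0 a.2).card = m + 1 := by
      refine le_antisymm ?_ hs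
      by_contra h
      have h2 : (m + 2) * c ≤ (supp i0 a.2).card * c := Nat.mul_le_mul_right _ (by omega)
      have h3 : (m + 2) * c = c * (m + 1) + c := by ring
      omega
    rw [hcard, mul_comm] at hsum2
    refine ⟨hy0 _ (by omega), hcard, ?_⟩
    by_contra hcon
    push Not at hcon
    obtain ⟨t, ht, hne⟩ := hcon
    have h2 : ∑ t ∈ supp i0 a.2, c < ∑ t ∈ supp i0 a.2, B.deg (a.2 t) :=
      sum_lt_sum hge ⟨t, ht, lt_of_le_of_ne (hge t ht) (Ne.symm hne)⟩
    rw [sum_const, smul_eq_mul, hcard, mul_comm] at h2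
    omega
  choose τ hτ hτT hτP using fun T : {T : Finset (Fin (n + 1)) // T.card = m + 1} =>
    exists_enum (W := W) (X := X) T.1 T.2
  -- the restrictions of the good words
  have hword : ∀ a, b.repr x a ≠ 0 → ∀ T : {T : Finset (Fin (n + 1)) // T.card = m + 1},
      (T.1 = supp i0 a.2 → W.map (sec κ ω (τ T)) (b a) = PP W X m (fun i => B.b (a.2 (τ T i))) ∧
        W.map (prj Y X (τ T)) (W.map (sec κ ω (τ T)) (b a)) = b a) ∧
      (T.1 ≠ supp i0 a.2 → W.map (sec κ ω (τ T)) (b a) = 0) := by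
    intro a ha T
    obtain ⟨g1, g2, g3⟩ := hgood a ha
    have hba : b a = EE W Y X n 1 (fun t => B.b (a.2 t)) := by rw [hb, g1, h1Y]
    refine ⟨fun hT => ?_, fun hT => ?_⟩
    · have h2 : b a = W.map (prj Y X (τ T)) (PP W X m (fun i => B.b (a.2 (τ T i)))) := by
        rw [hba, map_prj_PP (hτP T)]
        congr 1
        funext t
        by_cases ht : ∃ i, τ T i = t
        · obtain ⟨i, rfl⟩ := ht
          rw [(hτ T).extend_apply]
        · rw [Function.extend_apply' _ _ _ ht]
          have h3 : t ∉ supp i0 a.2 := by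
            rw [← hT]
            exact fun h => ht ((hτT T t).1 h)
          have h4 : a.2 t = i0 := by
            by_contra h'
            exact h3 (mem_filter.2 ⟨mem_univ _, h'⟩)
          rw [h4, h1]
      have h3 : W.map (sec κ ω (τ T)) (b a) = PP W X m (fun i => B.b (a.2 (τ T i))) := by
        rw [h2, ← W.map_comp, sec_prj κ ω (hτ T), W.map_id]
      exact ⟨h3, by rw [h3, ← h2]⟩
    · obtain ⟨t, ht, ht'⟩ : ∃ t ∈ supp i0 a.2, t ∉ T.1 := by
        by_contra hcon
        push Not at hcon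
        exact hT (eq_of_subset_of_card_le hcon (by rw [T.2, g2])).symm
      rw [hba]
      refine map_sec_zero κ ω _ t (fun h => ht' ((hτT T t).2 h)) (hκ c hc0 _ ?_)
      rw [← g3 t ht]
      exact B.mem _
  -- the class is the sum of its leading terms
  have hsum : x = ∑ T : {T : Finset (Fin (n + 1)) // T.card = m + 1},
      W.map (prj Y X (τ T)) (W.map (sec κ ω (τ T)) x) := by
    have h2 : ∀ T : {T : Finset (Fin (n + 1)) // T.card = m + 1},
        W.map (prj Y X (τ T)) (W.map (sec κ ω (τ T)) x) =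
          ∑ a, b.repr x a • W.map (prj Y X (τ T)) (W.map (sec κ ω (τ T)) (b a)) := by
      intro T
      conv_lhs => rw [← b.sum_repr x]
      rw [map_sum, map_sum]
      exact sum_congr rfl fun a _ => by rw [map_smul, map_smul]
    rw [sum_congr rfl fun T _ => h2 T, sum_comm]
    conv_lhs => rw [← b.sum_repr x]
    refine sum_congr rfl fun a _ => ?_
    by_cases ha : b.repr x a = 0
    · rw [ha, zero_smul]
      exact (sum_eq_zero fun T _ => by rw [zero_smul]).symm
    · rw [sum_eq_single ⟨supp i0 a.2, (hgood a ha).2.1⟩, ((hword a ha _).1 rfl).2]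
      · intro T _ hT
        rw [(hword a ha T).2 fun h => hT (Subtype.ext h), map_zero, smul_zero]
      · intro h
        exact absurd (mem_univ _) h
  rw [hsum]
  refine Submodule.sum_mem _ fun T _ => hU _ _ (hlead _ (hN _ _ hx) ?_)
  rw [← b.sum_repr x, map_sum]
  refine Submodule.sum_mem _ fun a _ => ?_
  rw [map_smul]
  by_cases ha : b.repr x a = 0
  · rw [ha, zero_smul]
    exact Submodule.zero_mem _
  refine Submodule.smul_mem _ _ ?_
  by_cases hT : T.1 = supp i0 a.2
  · rw [((hword a ha T).1 hT).1]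
    refine Submodule.subset_span ⟨_, fun i => ?_, rfl⟩
    have h3 := (hgood a ha).2.2 (τ T i) (by rw [← hT]; exact (hτT T _).2 ⟨i, rfl⟩)
    rw [← h3]
    exact B.mem _
  · rw [(hword a ha T).2 hT]
    exact Submodule.zero_mem _

end Pool.Agent.H858.AH
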