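import Pool.Agent.H858.AH.Core

/-!
# Restriction of classes on `Y × X ^ (n + 1)` to some of the factors
-/

set_option autoImplicit false
set_option linter.unusedSectionVars false
set_option linter.unusedVariables false

open CategoryTheory AlgebraicGeometry Finset

universe u v w

namespace Pool.Agent.H858.AH

open Pool.Agent.H914 hiding iter map_iter
open Pool.Agent.H447 Pool.Agent.W534 VarClass Obj WeilCohomology
open Pool.Agent.H281R3.HT Pool.Agent.W536.RR
open Pool.Agent.Y163 (pw pr tup tup_pr pw_hom_ext pr_zero_succ pr_succ dim_pw HBasis dualEq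
  dualEq_apply mon mon_eq exists_monBasis)
open Pool.Agent.H858.FC (PP PP_eq PP_gr PP_mul tr_PP PP_alg prod_filter_one)
open Pool.Agent.H858.AD

variable {k : Type u} [Field k] {𝒱 : VarClass k} {ops : CycleOps 𝒱}
  {W : WeilCohomology.{u, v} ops} {X Y Z : 𝒱.Obj}

/-- The endomorphism of `Y × X ^ (n + 1)` which is constant outside the factors in `S`. -/
theorem exists_eps {n r : ℕ} (hrn : r ≤ n) (κ : X ⟶ X) (S : Finset (Fin (n + 1)))
    (hS : S.card ≤ r + 1) : ∃ (p : Y.prod (pw X n) ⟶ Y.prod (pw X r))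
      (q : Y.prod (pw X r) ⟶ Y.prod (pw X n)), (p ≫ q) ≫ fst Y (pw X n) = fst Y (pw X n) ∧
      (∀ t ∈ S, ((p ≫ q) ≫ snd Y (pw X n)) ≫ pr X n t = snd Y (pw X n) ≫ pr X n t) ∧
      ∀ t, t ∉ S → ∃ g : Y.prod (pw X n) ⟶ X, ((p ≫ q) ≫ snd Y (pw X n)) ≫ pr X n t = g ≫ κ := by
  classical
  obtain ⟨S', hSS, hS'⟩ := Finset.exists_superset_card_eq hS
    (by rw [Fintype.card_fin]; omega)
  have e := S'.orderIsoOfFin hS'
  set τ : Fin (r + 1) → Fin (n + 1) := fun i => (e i : Fin (n + 1)) with hτ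
  have hinj : Function.Injective τ := fun a b h => e.injective (Subtype.ext h)
  have hsurj : ∀ t ∈ S', ∃ i, τ i = t := fun t ht => ⟨e.symm ⟨t, ht⟩, by simp [hτ]⟩
  obtain ⟨q, hq1, hq2⟩ : ∃ q : Y.prod (pw X r) ⟶ Y.prod (pw X n),
      q ≫ fst Y (pw X n) = fst Y (pw X r) ∧ ∀ t, q ≫ snd Y (pw X n) ≫ pr X n t =
        if t ∈ S then Function.extend τ (fun i => snd Y (pw X r) ≫ pr X r i)
          (fun _ => snd Y (pw X r) ≫ pr X r 0) t else (snd Y (pw X r) ≫ pr X r 0) ≫ κ := by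
    refine ⟨Obj.lift (fst Y (pw X r))
      (tup n fun t => if t ∈ S then Function.extend τ (fun i => snd Y (pw X r) ≫ pr X r i)
        (fun _ => snd Y (pw X r) ≫ pr X r 0) t else (snd Y (pw X r) ≫ pr X r 0) ≫ κ),
      Obj.lift_fst _ _, fun t => ?_⟩
    rw [← Category.assoc, Obj.lift_snd, tup_pr]
  obtain ⟨p, hp1, hp2⟩ : ∃ p : Y.prod (pw X n) ⟶ Y.prod (pw X r),
      p ≫ fst Y (pw X r) = fst Y (pw X n) ∧ ∀ i, p ≫ snd Y (pw X r) ≫ pr X r i =
        snd Y (pw X n) ≫ pr X n (τ i) := by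
    refine ⟨Obj.lift (fst Y (pw X n)) (tup r fun i => snd Y (pw X n) ≫ pr X n (τ i)),
      Obj.lift_fst _ _, fun t => ?_⟩
    rw [← Category.assoc, Obj.lift_snd, tup_pr]
  refine ⟨p, q, ?_, fun t ht => ?_, fun t ht => ⟨p ≫ snd Y (pw X r) ≫ pr X r 0, ?_⟩⟩
  · rw [Category.assoc, hq1, hp1]
  · rw [Category.assoc, Category.assoc, hq2, if_pos ht]
    obtain ⟨i, rfl⟩ := hsurj t (hSS ht)
    rw [hinj.extend_apply, hp2]
  · rw [Category.assoc, Category.assoc, hq2, if_neg ht, ← Category.assoc]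

/-- Words with support in `S`. -/
theorem map_eps_one {n : ℕ} {S : Finset (Fin (n + 1))} {e : Y.prod (pw X n) ⟶ Y.prod (pw X n)}
    (h1 : e ≫ fst Y (pw X n) = fst Y (pw X n))
    (h2 : ∀ t ∈ S, (e ≫ snd Y (pw X n)) ≫ pr X n t = snd Y (pw X n) ≫ pr X n t) (y : W.H Y)
    (x : Fin (n + 1) → W.H X) (hx : ∀ t, t ∉ S → x t = 1) :
    W.map e (EE W Y X n y x) = EE W Y X n y x := by
  rw [EE, map_mul, ← W.map_comp, h1, ← W.map_comp]
  congr 1
  rw [PP_eq, map_list_prod, map_list_prod, List.map_ofFn, List.map_ofFn]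
  congr 2
  funext t
  rw [Function.comp_apply, Function.comp_apply, ← W.map_comp, ← W.map_comp]
  by_cases ht : t ∈ S
  · rw [h2 t ht]
  · rw [hx t ht, map_one, map_one]

/-- The other words. -/
theorem map_eps_zero {n : ℕ} {e : Y.prod (pw X n) ⟶ Y.prod (pw X n)} (y : W.H Y)
    (x : Fin (n + 1) → W.H X) {κ : X ⟶ X} (t : Fin (n + 1)) (g : Y.prod (pw X n) ⟶ X)
    (hg : (e ≫ snd Y (pw X n)) ≫ pr X n t = g ≫ κ) (h0 : W.map κ (x t) = 0) :
    W.map e (EE W Y X n y x) = 0 := by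
  rw [EE, map_mul, ← W.map_comp e (snd Y (pw X n)), PP_eq, map_list_prod, List.map_ofFn]
  have h1 : (List.ofFn (⇑(W.map (e ≫ snd Y (pw X n))) ∘ fun i => W.map (pr X n i) (x i))).prod
      = 0 := by
    refine List.prod_eq_zero ?_
    rw [List.mem_ofFn]
    refine ⟨t, ?_⟩
    rw [Function.comp_apply, ← W.map_comp, hg, W.map_comp, h0, map_zero]
  rw [h1, mul_zero]

/-- Coordinates of the restriction. -/
theorem repr_eps {K V α : Type*} [Field K] [AddCommGroup V] [Module K V] [Fintype α]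
    (b : Module.Basis α K V) (f : V →ₗ[K] V) (P : α → Prop) [DecidablePred P]
    (h : ∀ a, f (b a) = if P a then b a else 0) (x : V) (a : α) :
    b.repr (f x) a = if P a then b.repr x a else 0 := by
  classical
  conv_lhs => rw [← b.sum_repr x]
  rw [map_sum, map_sum, Finsupp.finsetSum_apply, sum_eq_single a]
  · rw [map_smul, h]
    split_ifs
    · rw [map_smul, b.repr_self, Finsupp.smul_apply, Finsupp.single_eq_same, smul_eq_mul, mul_one]
    · rw [smul_zero, map_zero, Finsupp.zero_apply]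
  · intro c _ hne
    rw [map_smul, h]
    split_ifs
    · rw [map_smul, b.repr_self, Finsupp.smul_apply, Finsupp.single_eq_of_ne (Ne.symm hne),
        smul_zero]
    · rw [smul_zero, map_zero, Finsupp.zero_apply]
  · intro h'
    exact absurd (mem_univ _) h'

end Pool.Agent.H858.AH
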