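import Pool.Agent.H858.AH.Core

/-!
# Independent Hodge classes on `Y × X ^ (n + 1)`
-/

set_option autoImplicit false
set_option linter.unusedSectionVars false
set_option linter.unusedVariables false

open CategoryTheory AlgebraicGeometry Finset

universe u v w

namespace Pool.Agent.H858.AH

open Pool.Agent.H914 hiding iter map_iter
open Pool.Agent.H447 Pool.Agent.W534 VarClass Obj WeilCohomology
open Pool.Agent.H281R3.HT Pool.Agent.W536.RR
open Pool.Agent.Y163 (pw pr tup tup_pr pw_hom_ext pr_zero_succ pr_succ dim_pw HBasis dualEq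
  dualEq_apply mon mon_eq exists_monBasis)
open Pool.Agent.H858.FC (PP PP_eq PP_gr PP_mul tr_PP PP_alg prod_filter_one)
open Pool.Agent.H858.AD

variable {k : Type u} [Field k] {𝒱 : VarClass k} {ops : CycleOps 𝒱}
  {W : WeilCohomology.{u, v} ops} {X Y Z S : 𝒱.Obj}

theorem sec_prj_self {n m : ℕ} (κ : X ⟶ X) (ω : X ⟶ Y) {τ : Fin (m + 1) → Fin (n + 1)}
    (hτ : Function.Injective τ) (x : W.H (pw X m)) :
    W.map (sec κ ω τ) (W.map (prj Y X τ) x) = x := by
  rw [← W.map_comp, sec_prj κ ω hτ, W.map_id]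

theorem sec_prj_zero {n m : ℕ} {κ : X ⟶ X} (hκ : IsConstant W κ) (ω : X ⟶ Y)
    {τ τ' : Fin (m + 1) → Fin (n + 1)} (h : ∃ i, ¬ ∃ l, τ' l = τ i) {x : W.H (pw X m)}
    (hx : IsPure W X m x) : W.map (sec κ ω τ') (W.map (prj Y X τ) x) = 0 := by
  obtain ⟨i, hi⟩ := h
  rw [← W.map_comp]
  refine hx _ _ i ?_
  have h1 : (sec κ ω τ' ≫ prj Y X τ) ≫ coord X m i = pr X m 0 ≫ κ := by
    rw [coord_eq, Category.assoc, prj, Category.assoc, tup_pr, ← Category.assoc, sec, Obj.lift_snd, tup_pr,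
      Function.extend_apply' _ _ _ hi]
  rw [h1]
  intro d hd y hy
  rw [W.map_comp, hκ d hd y hy, map_zero]

/-- There are many independent classes. -/
theorem lowH {n m : ℕ} {κ : X ⟶ X} (hκ : IsConstant W κ) (ω : X ⟶ Y)
    (N : ∀ Z : 𝒱.Obj, Submodule W.K (W.H Z))
    (hN : ∀ {Z Z' : 𝒱.Obj} (f : Z ⟶ Z') (x : W.H Z'), x ∈ N Z' → W.map f x ∈ N Z)
    {x : W.H (pw X m)} (hx : IsPure W X m x) (hxN : x ∈ N (pw X m)) (hx0 : x ≠ 0) :
    (n + 1).choose (m + 1) ≤ Module.finrank W.K (N (Y.prod (pw X n))) := by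
  classical
  choose τ hτ hτT hτP using fun T : {T : Finset (Fin (n + 1)) // T.card = m + 1} =>
    exists_enum (W := W) (X := X) T.1 T.2
  have hli : LinearIndependent W.K (fun T : {T : Finset (Fin (n + 1)) // T.card = m + 1} =>
      (⟨W.map (prj Y X (τ T)) x, hN _ _ hxN⟩ : N (Y.prod (pw X n)))) := by
    rw [Fintype.linearIndependent_iff]
    intro g hg T
    have h1 : ∑ T, g T • W.map (prj Y X (τ T)) x = 0 := by
      have h2 := congrArg Subtype.val hg
      rw [Submodule.coe_sum] at h2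
      exact h2
    have h3 := congrArg (W.map (sec κ ω (τ T))) h1
    rw [map_sum, map_zero, sum_eq_single T, map_smul, sec_prj_self κ ω (hτ T)] at h3
    · exact (smul_eq_zero.1 h3).resolve_right hx0
    · intro T' _ hne
      obtain ⟨t, ht, ht'⟩ : ∃ t ∈ T'.1, t ∉ T.1 := by
        by_contra hcon
        push Not at hcon
        exact hne (Subtype.ext (eq_of_subset_of_card_le hcon (by rw [T.2, T'.2])))
      obtain ⟨i, rfl⟩ := (hτT T' t).1 ht
      rw [map_smul, sec_prj_zero hκ ω ⟨i, fun h => ht' ((hτT T _).2 h)⟩ hx, smul_zero]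
    · intro h
      exact absurd (mem_univ _) h
  have h4 := hli.fintype_card_le_finrank
  have h5 : Fintype.card {T : Finset (Fin (n + 1)) // T.card = m + 1} = (n + 1).choose (m + 1) := by
    rw [Fintype.card_finset_len, Fintype.card_fin]
  rwa [h5] at h4

end Pool.Agent.H858.AH
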