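import Pool.Agent.H858.AH.LowH

/-!
# Almost all Hodge classes are absolutely Hodge
-/

set_option autoImplicit false
set_option linter.unusedSectionVars false
set_option linter.unusedVariables false

open CategoryTheory AlgebraicGeometry Finset TensorProduct

universe u v w

namespace Pool.Agent.H858.AH

open Pool.Agent.H914 hiding iter map_iter
open Pool.Agent.H447 Pool.Agent.W534 VarClass Obj WeilCohomology
open Pool.Agent.H281R3.HT Pool.Agent.W536.RR
open Pool.Agent.Y163 (pw)
open Pool.Agent.Y121.AHS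
open Pool.Agent.H858.AD
open Pool.Agent.Y133.Half (dimOf)

variable {k : Type u} [Field k] {𝒱 : VarClass k} {ops : CycleOps 𝒱} {T : HodgeTheory ops}
  {X Y Z Z' : 𝒱.Obj}

section lin

variable {W : WeilCohomology.{u, 0} ops} {L : Type} [Field L] [Algebra W.K L]

theorem mapL_emL (f : Z ⟶ Z') (x : W.H Z') : mapL f (emL W L x) = emL W L (W.map f x) :=
  LinearMap.baseChange_tmul (A := L) (f := (W.map f).toLinearMap) (1 : L) x

theorem mapL_twL (f : Z ⟶ Z') (c : L) (j : ℕ) (x : HL W L Z') :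
    mapL f (twL c j x) = twL c j (mapL f x) :=
  ((W.map f).toLinearMap.baseChange L).map_smul (c ^ j) (show L ⊗[W.K] W.H Z' from x)

theorem emL_add (x y : W.H Z) : emL W L (x + y) = emL W L x + emL W L y :=
  TensorProduct.tmul_add (1 : L) x y

theorem emL_zero : emL W L (0 : W.H Z) = 0 := TensorProduct.tmul_zero _ (1 : L)

theorem emL_smul (r : W.K) (x : W.H Z) : emL W L (r • x) = algebraMap W.K L r • emL W L x := by
  have h1 : ((1 : L) ⊗ₜ[W.K] (r • x)) = (algebraMap W.K L r) • ((1 : L) ⊗ₜ[W.K] x) := by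
    rw [TensorProduct.tmul_smul, algebraMap_smul]
  exact h1

end lin

/-- The Hodge classes. -/
noncomputable def Hd (T : HodgeTheory ops) (j : ℕ) (Z : 𝒱.Obj) : Submodule T.W.K (T.W.H Z) where
  carrier := {x | IsHodge T Z j x}
  zero_mem' := ⟨Submodule.zero_mem _, by
    change emL T.W ℂ 0 ∈ T.pq Z j j
    rw [emL_zero]
    exact Submodule.zero_mem _⟩
  add_mem' {x y} hx hy := ⟨Submodule.add_mem _ hx.1 hy.1, by
    change emL T.W ℂ (x + y) ∈ T.pq Z j j
    rw [emL_add]
    exact Submodule.add_mem _ hx.2 hy.2⟩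
  smul_mem' r x hx := ⟨Submodule.smul_mem _ _ hx.1, by
    change emL T.W ℂ (r • x) ∈ T.pq Z j j
    rw [emL_smul]
    exact Submodule.smul_mem _ _ hx.2⟩

theorem hodge_map (f : Z ⟶ Z') {j : ℕ} {x : T.W.H Z'} (h : IsHodge T Z' j x) :
    IsHodge T Z j (T.W.map f x) := by
  refine ⟨T.W.map_mem f h.1, ?_⟩
  have h1 := T.map Z Z' f j j _ h.2
  rwa [mapL_emL] at h1

theorem abs_map {D : Conjugates T} (f : Z ⟶ Z') {j : ℕ} {x : T.W.H Z'}
    (h : IsAbsHodge D Z' j x) : IsAbsHodge D Z j (T.W.map f x) := by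
  obtain ⟨h1, c', h2, h3⟩ := h
  refine ⟨hodge_map f h1, fun i => (D.T' i).W.map f (c' i), fun i => hodge_map f (h2 i),
    fun a => ?_⟩
  have h4 : (D.cmp a).e Z' (emL T.W (D.L a) x) =
      twL (D.cmp a).c j (emL (D.T' (D.t a)).W (D.L a) (c' (D.t a))) := h3 a
  change (D.cmp a).e Z (emL T.W (D.L a) (T.W.map f x)) =
    twL (D.cmp a).c j (emL (D.T' (D.t a)).W (D.L a) ((D.T' (D.t a)).W.map f (c' (D.t a))))
  rw [← mapL_emL, (D.cmp a).nat, h4, mapL_twL, mapL_emL]

/-- The share of the absolutely Hodge classes. -/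
theorem main {D : Conjugates T} {m c j : ℕ} (hL : IsLeading T X m c j) (hA : LeadIsAbs D X m j)
    {κ : X ⟶ X} (hκ : IsConstant T.W κ) (ω : X ⟶ Y) (n : ℕ) :
    (1 - loss (m + 1) (bettiSum T.W X) (bettiSum T.W Y) (n + 1)) *
      hodgeRank T (Y.prod (pw X n)) j ≤ absRank D (Y.prod (pw X n)) j := by
  obtain ⟨hc0, hcL, hc, x₁, hx₁, hxH, hx0⟩ := hL
  replace hc : ∀ i, 0 < i → i < c → T.W.gr X i = ⊥ := fun i hi hi' =>
    (Submodule.eq_bot_iff _).2 fun x hx => by
      have h := hc i hi hi' x hx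
      rwa [T.W.map_id] at h
  by_cases h0 : (1 : T.W.H (Y.prod (pw X n))) = 0
  · have h1 : Subsingleton (T.W.H (Y.prod (pw X n))) :=
      ⟨fun x y => by rw [← one_mul x, ← one_mul y, h0, zero_mul, zero_mul]⟩
    have h2 : hodgeRank T (Y.prod (pw X n)) j = 0 := by
      unfold hodgeRank dimOf
      exact Module.finrank_zero_of_subsingleton
    rw [h2, Nat.cast_zero, mul_zero]
    positivity
  have hX1 : (1 : T.W.H X) ≠ 0 := fun h => h0 (by
    rw [← map_one (T.W.map (snd Y (pw X n) ≫ Pool.Agent.Y163.pr X n 0)), h, map_zero])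
  have hY1 : (1 : T.W.H Y) ≠ 0 := fun h => h0 (by
    rw [← map_one (T.W.map (fst Y (pw X n))), h, map_zero])
  set b := bettiSum T.W X with hb
  set b' := bettiSum T.W Y with hb'
  have hn0 : (0 : ℚ) < ((n + 1 : ℕ) : ℚ) := by positivity
  have hb1 : 1 ≤ b := by
    have : Nontrivial (T.W.H X) := ⟨⟨1, 0, hX1⟩⟩
    rw [hb, bettiSum_eq]
    exact Module.finrank_pos
  have hb1' : 1 ≤ b' := by
    have : Nontrivial (T.W.H Y) := ⟨⟨1, 0, hY1⟩⟩
    rw [hb', bettiSum_eq]
    exact Module.finrank_pos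
  -- the Hodge classes form a space
  have hHd : hodgeRank T (Y.prod (pw X n)) j =
      Module.finrank T.W.K (Hd T j (Y.prod (pw X n))) := by
    have h1 : Submodule.span T.W.K {x : T.W.H (Y.prod (pw X n)) | IsHodge T _ j x} =
        Hd T j (Y.prod (pw X n)) := Submodule.span_eq (Hd T j (Y.prod (pw X n)))
    rw [← h1]
    rfl
  have h2 := core (W := T.W) (X := X) (Y := Y) (n := n) hcL hc0 hc κ hκ ω (Hd T j)
    (fun Z => Submodule.span T.W.K {x : T.W.H Z | IsAbsHodge D Z j x}) (fun Z x hx => hx.1)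
    (fun f x hx => hodge_map f hx)
    (fun {Z Z'} f x hx => by
      induction hx using Submodule.span_induction with
      | mem x hx => exact Submodule.subset_span (abs_map f hx)
      | zero =>
        rw [map_zero]
        exact Submodule.zero_mem _
      | add x y _ _ hx hy =>
        rw [map_add]
        exact Submodule.add_mem _ hx hy
      | smul r x _ hx =>
        rw [map_smul]
        exact Submodule.smul_mem _ _ hx)
    (fun x hx hx' => Submodule.subset_span (hA x (isPure_of_lead hc0 hx') hx)) hX1 hY1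
  rw [← bettiSum_eq, ← bettiSum_eq, ← hb, ← hb'] at h2
  have h3 := lowH (W := T.W) (X := X) (Y := Y) (n := n) hκ ω (Hd T j)
    (fun f x hx => hodge_map f hx) hx₁ hxH hx0
  have hloss0 : 0 ≤ loss (m + 1) b b' (n + 1) := by
    rw [loss]
    positivity
  by_cases hbig : 1 ≤ loss (m + 1) b b' (n + 1)
  · calc (1 - loss (m + 1) b b' (n + 1)) * (hodgeRank T (Y.prod (pw X n)) j : ℚ) ≤ 0 :=
        mul_nonpos_of_nonpos_of_nonneg (by linarith) (by positivity)
      _ ≤ _ := by positivity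
  push Not at hbig
  have h4 : 4 * (m + 1) ≤ n + 1 := by
    by_contra h5
    have h6 : (n + 1 : ℕ) ≤ 4 * (m + 1) * b ^ (m + 1 - 1) * b' := by
      have h7 : 1 ≤ b ^ (m + 1 - 1) := Nat.one_le_pow _ _ hb1
      calc n + 1 ≤ 4 * (m + 1) := by omega
        _ ≤ 4 * (m + 1) * b ^ (m + 1 - 1) := Nat.le_mul_of_pos_right _ h7
        _ ≤ _ := Nat.le_mul_of_pos_right _ hb1'
    apply absurd hbig
    rw [not_lt, loss, le_div_iff₀ hn0, one_mul]
    exact_mod_cast h6
  have h5 := small_subsets h4 (Nat.succ_pos m)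
  have h6 : (((b' * (((univ : Finset (Finset (Fin (n + 1)))).filter
      fun S => S.card < m + 1).card * b ^ m) : ℕ)) : ℚ) ≤
      loss (m + 1) b b' (n + 1) * hodgeRank T (Y.prod (pw X n)) j := by
    calc (((b' * (((univ : Finset (Finset (Fin (n + 1)))).filter
        fun S => S.card < m + 1).card * b ^ m) : ℕ)) : ℚ)
        = b' * b ^ m * (((univ : Finset (Finset (Fin (n + 1)))).filter
          fun S => S.card < m + 1).card : ℚ) := by push_cast; ring
      _ ≤ b' * b ^ m * (4 * ((m + 1 : ℕ) : ℚ) / ((n + 1 : ℕ) : ℚ) *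
          ((n + 1).choose (m + 1) : ℚ)) := mul_le_mul_of_nonneg_left h5 (by positivity)
      _ = loss (m + 1) b b' (n + 1) * ((n + 1).choose (m + 1) : ℚ) := by
        rw [loss, Nat.add_sub_cancel]
        ring
      _ ≤ _ := by
        refine mul_le_mul_of_nonneg_left ?_ hloss0
        rw [hHd]
        exact_mod_cast h3
  have h7 : (hodgeRank T (Y.prod (pw X n)) j : ℚ) ≤ absRank D (Y.prod (pw X n)) j +
      ((b' * (((univ : Finset (Finset (Fin (n + 1)))).filter
        fun S => S.card < m + 1).card * b ^ m) : ℕ) : ℚ) := by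
    rw [hHd]
    exact_mod_cast h2
  linarith

end Pool.Agent.H858.AH
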