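import Pool.Agent.H858.AH.Main
import Pool.Agent.H858.AH.Eps

/-!
# One power decides all powers
-/

set_option autoImplicit false
set_option linter.unusedSectionVars false
set_option linter.unusedVariables false

open CategoryTheory AlgebraicGeometry Finset

universe u v w

namespace Pool.Agent.H858.AH

open Pool.Agent.H914 hiding iter map_iter
open Pool.Agent.H447 Pool.Agent.W534 VarClass Obj WeilCohomology
open Pool.Agent.H281R3.HT Pool.Agent.W536.RR
open Pool.Agent.Y163 (pw pr tup tup_pr pw_hom_ext pr_zero_succ pr_succ dim_pw HBasis dualEq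
  dualEq_apply mon mon_eq exists_monBasis)
open Pool.Agent.H858.FC (PP PP_eq PP_gr PP_mul tr_PP PP_alg prod_filter_one)
open Pool.Agent.R940 (repr_zero)
open Pool.Agent.Y121.AHS
open Pool.Agent.H858.AD

variable {k : Type u} [Field k] {𝒱 : VarClass k} {ops : CycleOps 𝒱}
  {W : WeilCohomology.{u, v} ops} {X Y Z S : 𝒱.Obj}

section

variable {ιY ι : Type v} [Fintype ιY] [Fintype ι] [DecidableEq ιY] [DecidableEq ι]
  {BY : HBasis W Y ιY} {B : HBasis W X ι} {n m r c j : ℕ}
  {b : Module.Basis (ιY × (Fin (n + 1) → ι)) W.K (W.H (Y.prod (pw X n)))}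

/-- Classes without words of small support. -/
theorem lead_mem (hcL : c * (m + 1) = 2 * j) (hc0 : 0 < c)
    (hc : ∀ i, 0 < i → i < c → W.gr X i = ⊥) (κ : X ⟶ X)
    (hκ : ∀ i, 0 < i → ∀ x ∈ W.gr X i, W.map κ x = 0) (ω : X ⟶ Y)
    (N U : ∀ Z : 𝒱.Obj, Submodule W.K (W.H Z)) (hgr : ∀ Z, N Z ≤ W.gr Z (2 * j))
    (hN : ∀ {Z Z' : 𝒱.Obj} (f : Z ⟶ Z') (x : W.H Z'), x ∈ N Z' → W.map f x ∈ N Z)
    (hU : ∀ {Z Z' : 𝒱.Obj} (f : Z ⟶ Z') (x : W.H Z'), x ∈ U Z' → W.map f x ∈ U Z)
    (hlead : ∀ x ∈ N (pw X m), x ∈ leadPart W X m c → x ∈ U (pw X m))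
    {i0 : ι} (h1 : B.b i0 = 1) (hi0 : ∀ i, B.deg i = 0 → i = i0) {y0 : ιY}
    (h1Y : BY.b y0 = 1) (hy0 : ∀ i, BY.deg i = 0 → i = y0)
    (hb : ∀ a, b a = EE W Y X n (BY.b a.1) (fun t => B.b (a.2 t)))
    {x : W.H (Y.prod (pw X n))} (hx : x ∈ N (Y.prod (pw X n)))
    (hx0 : ∀ a : ιY × (Fin (n + 1) → ι), (supp i0 a.2).card < m + 1 → b.repr x a = 0) :
    x ∈ U (Y.prod (pw X n)) := by
  -- only the good words occur
  have hgood : ∀ a, b.repr x a ≠ 0 → a.1 = y0 ∧ (supp i0 a.2).card = m + 1 ∧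
      ∀ t ∈ supp i0 a.2, B.deg (a.2 t) = c := by
    intro a ha
    have hs : m + 1 ≤ (supp i0 a.2).card := by
      by_contra h
      exact ha (hx0 a (not_le.1 h))
    have hdeg : BY.deg a.1 + ∑ t, B.deg (a.2 t) = 2 * j := by
      by_contra hdeg
      refine ha (repr_zero (W.isInternal _).submodule_iSupIndep b
        (fun a => BY.deg a.1 + ∑ t, B.deg (a.2 t)) (fun a => ?_) (hgr _ hx) hdeg)
      rw [hb]
      exact EE_gr (BY.mem _) fun t => B.mem _
    have hsum : ∑ t ∈ supp i0 a.2, B.deg (a.2 t) ≤ ∑ t, B.deg (a.2 t) :=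
      sum_le_sum_of_subset (subset_univ _)
    have hge : ∀ t ∈ supp i0 a.2, c ≤ B.deg (a.2 t) := fun t ht =>
      deg_ge hc hi0 (mem_filter.1 ht).2
    have hsum2 : (supp i0 a.2).card * c ≤ ∑ t ∈ supp i0 a.2, B.deg (a.2 t) := by
      have := card_nsmul_le_sum _ _ _ hge
      rwa [smul_eq_mul] at this
    have hcard : (supp i0 a.2).card = m + 1 := by
      refine le_antisymm ?_ hs
      by_contra h
      have h2 : (m + 2) * c ≤ (supp i0 a.2).card * c := Nat.mul_le_mul_right _ (by omega)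
      have h3 : (m + 2) * c = c * (m + 1) + c := by ring
      omega
    rw [hcard, mul_comm] at hsum2
    refine ⟨hy0 _ (by omega), hcard, ?_⟩
    by_contra hcon
    push Not at hcon
    obtain ⟨t, ht, hne⟩ := hcon
    have h2 : ∑ t ∈ supp i0 a.2, c < ∑ t ∈ supp i0 a.2, B.deg (a.2 t) :=
      sum_lt_sum hge ⟨t, ht, lt_of_le_of_ne (hge t ht) (Ne.symm hne)⟩
    rw [sum_const, smul_eq_mul, hcard, mul_comm] at h2
    omega
  choose τ hτ hτT hτP using fun T : {T : Finset (Fin (n + 1)) // T.card = m + 1} =>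
    exists_enum (W := W) (X := X) T.1 T.2
  -- the restrictions of the good words
  have hword : ∀ a, b.repr x a ≠ 0 → ∀ T : {T : Finset (Fin (n + 1)) // T.card = m + 1},
      (T.1 = supp i0 a.2 → W.map (sec κ ω (τ T)) (b a) = PP W X m (fun i => B.b (a.2 (τ T i))) ∧
        W.map (prj Y X (τ T)) (W.map (sec κ ω (τ T)) (b a)) = b a) ∧
      (T.1 ≠ supp i0 a.2 → W.map (sec κ ω (τ T)) (b a) = 0) := by
    intro a ha T
    obtain ⟨g1, g2, g3⟩ := hgood a ha
    have hba : b a = EE W Y X n 1 (fun t => B.b (a.2 t)) := by rw [hb, g1, h1Y]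
    refine ⟨fun hT => ?_, fun hT => ?_⟩
    · have h2 : b a = W.map (prj Y X (τ T)) (PP W X m (fun i => B.b (a.2 (τ T i)))) := by
        rw [hba, map_prj_PP (hτP T)]
        congr 1
        funext t
        by_cases ht : ∃ i, τ T i = t
        · obtain ⟨i, rfl⟩ := ht
          rw [(hτ T).extend_apply]
        · rw [Function.extend_apply' _ _ _ ht]
          have h3 : t ∉ supp i0 a.2 := by
            rw [← hT]
            exact fun h => ht ((hτT T t).1 h)
          have h4 : a.2 t = i0 := by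
            by_contra h'
            exact h3 (mem_filter.2 ⟨mem_univ _, h'⟩)
          rw [h4, h1]
      have h3 : W.map (sec κ ω (τ T)) (b a) = PP W X m (fun i => B.b (a.2 (τ T i))) := by
        rw [h2, ← W.map_comp, sec_prj κ ω (hτ T), W.map_id]
      exact ⟨h3, by rw [h3, ← h2]⟩
    · obtain ⟨t, ht, ht'⟩ : ∃ t ∈ supp i0 a.2, t ∉ T.1 := by
        by_contra hcon
        push Not at hcon
        exact hT (eq_of_subset_of_card_le hcon (by rw [T.2, g2])).symm
      rw [hba]
      refine map_sec_zero κ ω _ t (fun h => ht' ((hτT T t).2 h)) (hκ c hc0 _ ?_)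
      rw [← g3 t ht]
      exact B.mem _
  -- the class is the sum of its leading terms
  have hsum : x = ∑ T : {T : Finset (Fin (n + 1)) // T.card = m + 1},
      W.map (prj Y X (τ T)) (W.map (sec κ ω (τ T)) x) := by
    have h2 : ∀ T : {T : Finset (Fin (n + 1)) // T.card = m + 1},
        W.map (prj Y X (τ T)) (W.map (sec κ ω (τ T)) x) =
          ∑ a, b.repr x a • W.map (prj Y X (τ T)) (W.map (sec κ ω (τ T)) (b a)) := by
      intro T
      conv_lhs => rw [← b.sum_repr x]
      rw [map_sum, map_sum]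
      exact sum_congr rfl fun a _ => by rw [map_smul, map_smul]
    rw [sum_congr rfl fun T _ => h2 T, sum_comm]
    conv_lhs => rw [← b.sum_repr x]
    refine sum_congr rfl fun a _ => ?_
    by_cases ha : b.repr x a = 0
    · rw [ha, zero_smul]
      exact (sum_eq_zero fun T _ => by rw [zero_smul]).symm
    · rw [sum_eq_single ⟨supp i0 a.2, (hgood a ha).2.1⟩, ((hword a ha _).1 rfl).2]
      · intro T _ hT
        rw [(hword a ha T).2 fun h => hT (Subtype.ext h), map_zero, smul_zero]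
      · intro h
        exact absurd (mem_univ _) h
  rw [hsum]
  refine Submodule.sum_mem _ fun T _ => hU _ _ (hlead _ (hN _ _ hx) ?_)
  rw [← b.sum_repr x, map_sum]
  refine Submodule.sum_mem _ fun a _ => ?_
  rw [map_smul]
  by_cases ha : b.repr x a = 0
  · rw [ha, zero_smul]
    exact Submodule.zero_mem _
  refine Submodule.smul_mem _ _ ?_
  by_cases hT : T.1 = supp i0 a.2
  · rw [((hword a ha T).1 hT).1]
    refine Submodule.subset_span ⟨_, fun i => ?_, rfl⟩
    have h3 := (hgood a ha).2.2 (τ T i) (by rw [← hT]; exact (hτT T _).2 ⟨i, rfl⟩)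
    rw [← h3]
    exact B.mem _
  · rw [(hword a ha T).2 hT]
    exact Submodule.zero_mem _

end

/-- **One power decides.** -/
theorem one_power {n m r c j : ℕ} (hmr : m ≤ r + 1) (hrn : r ≤ n) (hcL : c * (m + 1) = 2 * j)
    (hc0 : 0 < c) (hc : ∀ i, 0 < i → i < c → W.gr X i = ⊥) (κ : X ⟶ X)
    (hκ : ∀ i, 0 < i → ∀ x ∈ W.gr X i, W.map κ x = 0) (ω : X ⟶ Y)
    (N U : ∀ Z : 𝒱.Obj, Submodule W.K (W.H Z)) (hgr : ∀ Z, N Z ≤ W.gr Z (2 * j))
    (hN : ∀ {Z Z' : 𝒱.Obj} (f : Z ⟶ Z') (x : W.H Z'), x ∈ N Z' → W.map f x ∈ N Z)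
    (hU : ∀ {Z Z' : 𝒱.Obj} (f : Z ⟶ Z') (x : W.H Z'), x ∈ U Z' → W.map f x ∈ U Z)
    (hlead : ∀ x ∈ N (pw X m), x ∈ leadPart W X m c → x ∈ U (pw X m))
    (hX1 : (1 : W.H X) ≠ 0) (hY1 : (1 : W.H Y) ≠ 0)
    (hall : ∀ x ∈ N (Y.prod (pw X r)), x ∈ U (Y.prod (pw X r))) :
    ∀ x ∈ N (Y.prod (pw X n)), x ∈ U (Y.prod (pw X n)) := by
  classical
  obtain ⟨ι, hι, B, i0, h0, h1, hi0⟩ := exists_ubasis hX1
  obtain ⟨ιY, hιY, BY, y0, h0Y, h1Y, hy0⟩ := exists_ubasis hY1
  have := Fintype.ofFinite ι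
  have := Fintype.ofFinite ιY
  obtain ⟨b, hb⟩ := exists_wbasis BY B n
  suffices h : ∀ d s, s + d = m + 1 → ∀ x ∈ N (Y.prod (pw X n)),
      (∀ a : ιY × (Fin (n + 1) → ι), (supp i0 a.2).card < s → b.repr x a = 0) →
        x ∈ U (Y.prod (pw X n)) from
    fun x hx => h (m + 1) 0 (by omega) x hx fun a ha => absurd ha (Nat.not_lt_zero _)
  intro d
  induction d with
  | zero =>
    intro s hs x hx hx0
    obtain rfl : s = m + 1 := by omega
    exact lead_mem hcL hc0 hc κ hκ ω N U hgr hN hU hlead h1 hi0 h1Y hy0 hb hx hx0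
  | succ d ih =>
    intro s hs x hx hx0
    choose p q he1 he2 he3 using fun S : {S : Finset (Fin (n + 1)) // S.card = s} =>
      exists_eps (Y := Y) hrn κ S.1 (by rw [S.2]; omega : S.1.card ≤ r + 1)
    -- the action on the words
    have hact : ∀ (S : {S : Finset (Fin (n + 1)) // S.card = s}) (a : ιY × (Fin (n + 1) → ι)),
        W.map (p S ≫ q S) (b a) = if supp i0 a.2 ⊆ S.1 then b a else 0 := by
      intro S a
      split_ifs with h
      · rw [hb]
        refine map_eps_one (he1 S) (he2 S) _ _ fun t ht => ?_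
        have h4 : a.2 t = i0 := by
          by_contra h'
          exact ht (h (mem_filter.2 ⟨mem_univ _, h'⟩))
        rw [h4, h1]
      · rw [Finset.not_subset] at h
        obtain ⟨t, ht, ht'⟩ := h
        obtain ⟨g, hg⟩ := he3 S t ht'
        rw [hb]
        refine map_eps_zero _ _ t g hg (hκ _ (Nat.pos_of_ne_zero fun h5 => ?_) _ (B.mem _))
        exact (mem_filter.1 ht).2 (hi0 _ h5)
    set x' : W.H (Y.prod (pw X n)) := ∑ S : {S : Finset (Fin (n + 1)) // S.card = s},
      W.map (p S ≫ q S) x with hx'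
    have hx'N : x' ∈ N (Y.prod (pw X n)) := Submodule.sum_mem _ fun S _ => hN _ _ hx
    have hx'U : x' ∈ U (Y.prod (pw X n)) := Submodule.sum_mem _ fun S _ => by
      rw [W.map_comp]
      exact hU _ _ (hall _ (hN _ _ hx))
    have hrep : ∀ a : ιY × (Fin (n + 1) → ι), (supp i0 a.2).card < s + 1 →
        b.repr (x - x') a = 0 := by
      intro a ha
      have h2 : b.repr x' a = b.repr x a := by
        have h3 : ∀ S : {S : Finset (Fin (n + 1)) // S.card = s},
            b.repr (W.map (p S ≫ q S) x) a = if supp i0 a.2 ⊆ S.1 then b.repr x a else 0 :=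
          fun S => repr_eps b (W.map (p S ≫ q S)).toLinearMap (fun a => supp i0 a.2 ⊆ S.1)
            (hact S) x a
        rw [hx', map_sum, Finsupp.finsetSum_apply]
        rw [sum_congr rfl fun S _ => h3 S]
        by_cases hs' : (supp i0 a.2).card < s
        · rw [hx0 a hs']
          exact sum_eq_zero fun S _ => ite_self _
        · rw [sum_eq_single ⟨supp i0 a.2, by omega⟩]
          · rw [if_pos (Finset.Subset.refl _)]
          · intro S _ hne
            refine if_neg fun hsub => hne (Subtype.ext ?_)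
            exact (eq_of_subset_of_card_le hsub (by rw [S.2]; omega)).symm
          · intro h
            exact absurd (mem_univ _) h
      rw [map_sub, Finsupp.sub_apply, h2, sub_self]
    have h3 := ih (s + 1) (by omega) (x - x') (Submodule.sub_mem _ hx hx'N) hrep
    have h4 := Submodule.add_mem _ h3 hx'U
    rwa [sub_add_cancel] at h4

end Pool.Agent.H858.AH
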