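import Pool.Agent.H858.AH.Prop
import Pool.Graph.R_seed8.Y121.AHS.Conv

/-!
# Almost all Hodge classes are absolutely Hodge, and one power decides all powers
-/

set_option autoImplicit false
set_option linter.unusedSectionVars false
set_option linter.unusedVariables false

open CategoryTheory AlgebraicGeometry Finset

universe u v w

namespace Pool.Agent.H858.AH

open Pool.Agent.H914 hiding iter map_iter
open Pool.Agent.H447 Pool.Agent.W534 VarClass Obj WeilCohomology
open Pool.Agent.Y163 (pw)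
open Pool.Agent.Y121.AHS

variable {k : Type u} [Field k] {𝒱 : VarClass k} {ops : CycleOps 𝒱} {T : HodgeTheory ops}
  {X Y : 𝒱.Obj}

/-- The absolutely Hodge classes. -/
noncomputable def Ab (D : Conjugates T) (j : ℕ) (Z : 𝒱.Obj) : Submodule T.W.K (T.W.H Z) where
  carrier := {x | IsAbsHodge D Z j x}
  zero_mem' := (Pool.Agent.Y121.AH.absPred (toD D)).zero (X := Z) (j := j)
  add_mem' {a b} ha hb := (Pool.Agent.Y121.AH.absPred (toD D)).add (X := Z) (j := j) ha hb
  smul_mem' r a ha := (Pool.Agent.Y121.AH.absPred (toD D)).smul (X := Z) (j := j) r ha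

/-- **One power decides.** -/
theorem two {D : Conjugates T} {m c j : ℕ} (hL : IsLeading T X m c j) (hA : LeadIsAbs D X m j)
    {κ : X ⟶ X} (hκ : IsConstant T.W κ) (ω : X ⟶ Y) {r n : ℕ} (hmr : m ≤ r + 1) (hrn : r ≤ n)
    (h : ∀ x, IsHodge T (Y.prod (pw X r)) j x → IsAbsHodge D (Y.prod (pw X r)) j x)
    (x : T.W.H (Y.prod (pw X n))) (hx : IsHodge T (Y.prod (pw X n)) j x) :
    IsAbsHodge D (Y.prod (pw X n)) j x := by
  obtain ⟨hc0, hcL, hc, -⟩ := hL
  replace hc : ∀ i, 0 < i → i < c → T.W.gr X i = ⊥ := fun i hi hi' =>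
    (Submodule.eq_bot_iff _).2 fun x hx => by
      have h := hc i hi hi' x hx
      rwa [T.W.map_id] at h
  by_cases h0 : (1 : T.W.H (Y.prod (pw X n))) = 0
  · have hx0 : x = 0 := by rw [← one_mul x, h0, zero_mul]
    rw [hx0]
    exact (Ab D j (Y.prod (pw X n))).zero_mem
  have hX1 : (1 : T.W.H X) ≠ 0 := fun h => h0 (by
    rw [← map_one (T.W.map (snd Y (pw X n) ≫ Pool.Agent.Y163.pr X n 0)), h, map_zero])
  have hY1 : (1 : T.W.H Y) ≠ 0 := fun h => h0 (by
    rw [← map_one (T.W.map (fst Y (pw X n))), h, map_zero])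
  exact one_power (W := T.W) (X := X) (Y := Y) (n := n) hmr hrn hcL hc0 hc κ hκ ω (Hd T j) (Ab D j)
    (fun Z x hx => hx.1) (fun f x hx => hodge_map f hx) (fun f x hx => abs_map f hx)
    (fun x hx hx' => hA x (isPure_of_lead hc0 hx') hx) hX1 hY1 (fun x hx => h x hx) x hx

end Pool.Agent.H858.AH
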